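import Pool.Agent.V7H38.AD.Glue2

/-!
# Project AD: the final statement
-/

open Finset
open Pool.Agent.V7H76.AD

set_option autoImplicit false

namespace Pool.Agent.V7H38.AD

/-- the asymptotics: from one lower bound per stage to the final statement -/
theorem final (a : ℕ → ℕ) (m0 : ℕ) (ha : StrictMono a)
    (hR : ∀ m, m0 ≤ m → 2048 * (2 * m + 1) ≤ rothNumberNat (2 ^ m))
    (hs : ∀ m, m0 ≤ m → ∃ n : ℕ, (∀ j < n, a j < 2 ^ (30 * 4 ^ (m + 1))) ∧
      ((rothNumberNat (2 ^ m) ^ 2 / 16384 : ℕ) : ℝ) / (128 * 2 ^ m) ≤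
        ∑ j ∈ range n, (1 : ℝ) / (a j : ℝ)) (ε : ℝ) (hε : 0 < ε) :
    ∃ x₀ : ℝ, ∀ x : ℝ, x₀ ≤ x → (Real.log x) ^ (1 / 2 - ε) ≤
      ∑ n ∈ (range ⌈x⌉₊).filter (fun n => (a n : ℝ) < x), (1 : ℝ) / (a n : ℝ) := by
  set δ := min ε (1 / 4) with hδ
  have hδ0 : 0 < δ := lt_min hε (by norm_num)
  have hδ4 : δ ≤ 1 / 4 := min_le_right _ _
  obtain ⟨M, hM⟩ := exists_nat_ge ((14 / δ + 1) ^ 2 / Real.log 2)
  set m1 := max m0 M with hm1
  refine ⟨(2 : ℝ) ^ (30 * 4 ^ (m1 + 1)), fun x hx => ?_⟩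
  -- the stage
  have hex : ∃ d : ℕ, x < (2 : ℝ) ^ (30 * 4 ^ (m1 + d + 1)) := by
    obtain ⟨d, hd⟩ := pow_unbounded_of_one_lt x (by norm_num : (1 : ℝ) < 2)
    refine ⟨d, hd.trans_le (pow_le_pow_right₀ (by norm_num) ?_)⟩
    have h1 : m1 + d + 1 < 4 ^ (m1 + d + 1) := Nat.lt_pow_self (by norm_num)
    omega
  have hd0 : 0 < Nat.find hex := by
    rw [Nat.pos_iff_ne_zero]
    intro h0
    have := Nat.find_spec hex
    rw [h0, add_zero] at this
    exact absurd hx (not_le.2 this)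
  obtain ⟨d, hd⟩ : ∃ d, Nat.find hex = d + 1 := ⟨Nat.find hex - 1, by omega⟩
  have hx2 : x < (2 : ℝ) ^ (30 * 4 ^ (m1 + d + 2)) := by
    have := Nat.find_spec hex
    rw [hd, show m1 + (d + 1) + 1 = m1 + d + 2 by ring] at this
    exact this
  have hx1 : (2 : ℝ) ^ (30 * 4 ^ (m1 + d + 1)) ≤ x := by
    have := Nat.find_min hex (m := d) (by omega)
    exact not_lt.1 this
  set m := m1 + d with hm
  have hm0 : m0 ≤ m := by omega
  have hMm : M ≤ m := by omega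
  clear_value m
  clear hd hd0 hex hx
  have hlog2 : 0 < Real.log 2 := Real.log_pos (by norm_num)
  have hbig : (14 / δ + 1) ^ 2 ≤ m * Real.log 2 := by
    rw [div_le_iff₀ hlog2] at hM
    refine hM.trans (mul_le_mul_of_nonneg_right ?_ hlog2.le)
    exact_mod_cast hMm
  have hone : (1 : ℝ) < 2 ^ (30 * 4 ^ (m + 1)) := one_lt_pow₀ (by norm_num) (by positivity)
  have hx0 : 0 < x := by linarith
  -- the logarithm of x
  have hl1 : 1 ≤ Real.log x := by
    have h1 : Real.log (2 ^ (30 * 4 ^ (m + 1))) ≤ Real.log x :=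
      Real.log_le_log (by positivity) hx1
    rw [Real.log_pow] at h1
    have h2 : (30 : ℝ) ≤ ((30 * 4 ^ (m + 1) : ℕ) : ℝ) := by
      have : 30 ≤ 30 * 4 ^ (m + 1) := Nat.le_mul_of_pos_right _ (by positivity)
      exact_mod_cast this
    have := log2_gt
    nlinarith
  have hl2 : Real.log x ≤ 480 * 4 ^ m := by
    have h1 : Real.log x ≤ Real.log (2 ^ (30 * 4 ^ (m + 2))) := Real.log_le_log hx0 hx2.le
    rw [Real.log_pow] at h1
    have h2 : ((30 * 4 ^ (m + 2) : ℕ) : ℝ) = 480 * 4 ^ m := by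
      push_cast
      ring
    rw [h2] at h1
    have h3 : (0 : ℝ) ≤ 480 * 4 ^ m := by positivity
    have := log2_lt
    nlinarith
  have hpow : (Real.log x) ^ (1 / 2 - ε) ≤
      Real.exp (m * Real.log 2 - 8 * √(m * Real.log 2) - 22 * Real.log 2) := by
    calc (Real.log x) ^ (1 / 2 - ε) ≤ (Real.log x) ^ (1 / 2 - δ) :=
          Real.rpow_le_rpow_of_exponent_le hl1 (by linarith [min_le_left ε (1 / 4)])
      _ ≤ (480 * 4 ^ m) ^ (1 / 2 - δ) := Real.rpow_le_rpow (by linarith) hl2 (by linarith)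
      _ = Real.exp ((1 / 2 - δ) * Real.log (480 * 4 ^ m)) := by
          rw [Real.rpow_def_of_pos (by positivity), mul_comm]
      _ ≤ _ := Real.exp_le_exp.2 (exponents δ hδ0 hδ4 m hbig)
  have hst := stage_lower m (hR m hm0)
  obtain ⟨n, hn1, hn2⟩ := hs m hm0
  refine hpow.trans (hst.trans (hn2.trans ?_))
  refine sum_le_sum_of_subset_of_nonneg (fun j hj => ?_)
    (fun _ _ _ => div_nonneg zero_le_one (Nat.cast_nonneg _))
  have h1 := hn1 j (mem_range.1 hj)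
  have h2 : (a j : ℝ) < x := by
    refine lt_of_lt_of_le ?_ hx1
    exact_mod_cast h1
  rw [mem_filter, mem_range]
  refine ⟨?_, h2⟩
  rw [Nat.lt_ceil]
  refine lt_of_le_of_lt ?_ h2
  exact_mod_cast ha.le_apply

end Pool.Agent.V7H38.AD
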