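import Pool.Agent.V7H38.AD.Glue1
import Pool.Agent.V7H38.AD.Glue3

/-!
# Project AD: `S_STAGE → S_FIN`
-/

open Finset
open Pool.Agent.V7H76.AD

set_option autoImplicit false

namespace Pool.Agent.V7H38.AD

theorem t_FIN (h : S_STAGE) : S_FIN := by
  obtain ⟨a, m0, h1, h2, h3, h4, h5⟩ := t_G1 h 1000 (by norm_num) t_M0
  exact ⟨a, h1, h2, h3, fun ε hε => final a m0 h1 h4 h5 ε hε⟩

end Pool.Agent.V7H38.AD
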