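import Pool.Agent.V7H76.AD.Spec

/-!
# Project AD: concatenation of the stages
-/

open Finset
open Pool.Agent.V7H76.AD

set_option autoImplicit false

namespace Pool.Agent.V7H38.AD

lemma S_congr {b b' : ℕ → ℕ} {n : ℕ} (h : ∀ j < n, b' j = b j) : ∀ l ≤ n, S b' l = S b l :=
  fun l hl => sum_congr rfl fun j hj => h j (by have := mem_range.1 hj; omega)

lemma Dg_congr {b b' : ℕ → ℕ} {n : ℕ} (h : ∀ j < n, b' j = b j) (z : ℕ) :
    Dg b' n z ↔ Dg b n z := by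
  constructor
  · rintro ⟨j, l, h1, h2, h3⟩
    refine ⟨j, l, h1, h2, ?_⟩
    rw [← S_congr h l h2, ← S_congr h j (by omega)]
    exact h3
  · rintro ⟨j, l, h1, h2, h3⟩
    refine ⟨j, l, h1, h2, ?_⟩
    rw [S_congr h l h2, S_congr h j (by omega)]
    exact h3

lemma S_mono (b : ℕ → ℕ) {k l : ℕ} (h : k ≤ l) : S b k ≤ S b l :=
  sum_le_sum_of_subset (range_mono h)

lemma S_succ (b : ℕ → ℕ) (l : ℕ) : S b (l + 1) = S b l + b l := sum_range_succ _ _

lemma S_Icc (a : ℕ → ℕ) {k l : ℕ} (h : k ≤ l) : S a (l + 1) = S a k + ∑ j ∈ Icc k l, a j := by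
  have h1 : Icc k l = Ico k (l + 1) := by
    ext j
    rw [mem_Icc, mem_Ico]
    omega
  rw [h1, S, S, range_eq_Ico, range_eq_Ico, sum_Ico_consecutive a (Nat.zero_le k) (by omega)]

lemma sum_le_range (b1 : ℕ → ℕ) (n n1 : ℕ) : ∑ j ∈ Ico n n1, (1 : ℝ) / (b1 j : ℝ) ≤
    ∑ j ∈ range n1, (1 : ℝ) / (b1 j : ℝ) :=
  sum_le_sum_of_subset_of_nonneg (fun _ hj => mem_range.2 (mem_Ico.1 hj).2)
    (fun _ _ _ => div_nonneg zero_le_one (Nat.cast_nonneg _))

/-- an admissible sequence with `n` terms below `2 ^ y` -/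
structure Fs (b : ℕ → ℕ) (n y : ℕ) : Prop where
  pos : ∀ j < n, 1 ≤ b j
  mono : ∀ j, j + 1 < n → b j < b (j + 1)
  adm : ∀ j < n, ¬ Dg b j (b j)
  lt : ∀ j < n, b j < 2 ^ y

lemma Fs.ge {b : ℕ → ℕ} {n y : ℕ} (h : Fs b n y) : ∀ j < n, j ≤ b j := by
  intro j
  induction j with
  | zero => intro _; exact Nat.zero_le _
  | succ j ih =>
    intro hj
    have h1 := ih (by omega)
    have h2 := h.mono j hj
    omega

lemma Fs.card {b : ℕ → ℕ} {n y : ℕ} (h : Fs b n y) : n ≤ 2 ^ y := by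
  rcases Nat.eq_zero_or_pos n with h0 | h0
  · rw [h0]; exact Nat.zero_le _
  · have h1 := h.ge (n - 1) (by omega)
    have h2 := h.lt (n - 1) (by omega)
    omega

lemma Fs.sum {b : ℕ → ℕ} {n y : ℕ} (h : Fs b n y) : S b n ≤ 2 ^ (2 * y) := by
  have h1 : S b n ≤ ∑ _j ∈ range n, 2 ^ y :=
    sum_le_sum fun j hj => (h.lt j (mem_range.1 hj)).le
  rw [sum_const, card_range, smul_eq_mul] at h1
  calc S b n ≤ n * 2 ^ y := h1
    _ ≤ 2 ^ y * 2 ^ y := Nat.mul_le_mul_right _ h.card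
    _ = 2 ^ (2 * y) := by rw [two_mul, pow_add]

lemma add_stage (hST : S_STAGE) (m : ℕ) (hm : 1 ≤ m)
    (hR : 2048 * (2 * m + 1) ≤ rothNumberNat (2 ^ m)) (b : ℕ → ℕ) (n y : ℕ) (hF : Fs b n y) :
    ∃ (b' : ℕ → ℕ) (n' : ℕ), n < n' ∧ (∀ j < n, b' j = b j) ∧
      Fs b' n' (2 * y + 3 * m + 20 + rothNumberNat (2 ^ m) ^ 2 / 16384) ∧
      ((rothNumberNat (2 ^ m) ^ 2 / 16384 : ℕ) : ℝ) / (128 * 2 ^ m) ≤
        ∑ j ∈ range n', (1 : ℝ) / (b' j : ℝ) := by
  obtain ⟨A, hA1, hA2, hA3⟩ := rothNumberNat_spec (2 ^ m)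
  set P := 2 ^ m with hP
  set L := rothNumberNat P ^ 2 / 16384 with hL
  set B := 32 * P * P + 1 + S b n with hB
  set b0 : ℕ → ℕ := fun j => if j < n then b j else B with hb0
  have e1 : ∀ j < n, b0 j = b j := fun j hj => if_pos hj
  have e2 : b0 n = B := if_neg (lt_irrefl n)
  set i0 := 2 * y + 3 * m + 20 with hi0
  have hPP : 32 * P * P = 2 ^ (2 * m + 5) := by
    rw [hP, show 2 * m + 5 = 5 + (m + m) by ring, pow_add, pow_add]
    ring
  have hsum := hF.sum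
  have hn := hF.card
  have hy1 : 1 ≤ 2 ^ y := Nat.one_le_two_pow
  have hSn0 : S b0 (n + 1) = 2 * S b n + 32 * P * P + 1 := by
    rw [S_succ, e2, S_congr e1 n le_rfl, hB]
    ring
  have hSlt : S b0 (n + 1) < 2 ^ i0 := by
    rw [hSn0, hPP]
    have h1 : 2 ^ (2 * y) ≤ 2 ^ (2 * y + 3 * m + 17) :=
      Nat.pow_le_pow_right (by norm_num) (by omega)
    have h2 : 2 ^ (2 * m + 5) ≤ 2 ^ (2 * y + 3 * m + 17) :=
      Nat.pow_le_pow_right (by norm_num) (by omega)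
    have h3 : 1 ≤ 2 ^ (2 * y + 3 * m + 17) := Nat.one_le_two_pow
    have h4 : 2 ^ i0 = 8 * 2 ^ (2 * y + 3 * m + 17) := by
      rw [hi0, show 2 * y + 3 * m + 20 = 3 + (2 * y + 3 * m + 17) by ring, pow_add]
      norm_num
    rw [h4]
    omega
  have par : Par P m (n + 1) i0 (2 ^ (i0 - (2 * m + 5))) L A b0 := by
    refine ⟨hP, hm, fun α hα => mem_range.1 (hA1 hα), hA3, by rw [hA2]; exact hR, ?_, by omega,
      ?_, hSlt, ?_, ?_, ?_⟩
    · rw [hA2, hL]
      exact Nat.mul_div_le _ _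
    · rw [Nat.add_sub_cancel, e2, hB]
      omega
    · have h1 : n + 1 ≤ 2 ^ (y + 1) := by
        rw [pow_succ]
        omega
      calc 256 * (n + 1) * (16 * P) ≤ 256 * 2 ^ (y + 1) * (16 * P) :=
            Nat.mul_le_mul_right _ (Nat.mul_le_mul_left _ h1)
        _ = 2 ^ (y + m + 13) := by
            rw [hP, show y + m + 13 = 8 + 4 + (y + 1) + m by ring, pow_add, pow_add, pow_add]
            norm_num
            ring
        _ ≤ 2 ^ i0 := Nat.pow_le_pow_right (by norm_num) (by omega)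
    · calc 16 * P * P * P = 2 ^ (3 * m + 4) := by
            rw [hP, show 3 * m + 4 = 4 + m + m + m by ring, pow_add, pow_add, pow_add]
            norm_num
        _ ≤ 2 ^ i0 := Nat.pow_le_pow_right (by norm_num) (by omega)
    · rw [hPP, ← pow_add]
      congr 1
      omega
  obtain ⟨b1, n1, hn1, hold, hrng, hinc, hadm, hS1⟩ := hST P m (n + 1) i0 _ L A b0 par
  have hold' : ∀ j < n, b1 j = b j := fun j hj => by rw [hold j (by omega), e1 j hj]
  have hbuf : b1 n = B := by rw [hold n (by omega), e2]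
  have hBlt : B < 2 ^ i0 := by
    rw [hSn0] at hSlt
    omega
  have hi0L : 2 ^ i0 ≤ 2 ^ (i0 + L) := Nat.pow_le_pow_right (by norm_num) (by omega)
  have hy2 : 2 ^ y ≤ 2 ^ i0 := Nat.pow_le_pow_right (by norm_num) (by omega)
  have h6 : (P : ℝ) = 2 ^ m := by
    rw [hP]
    exact Nat.cast_pow 2 m
  have h5 := sum_le_range b1 (n + 1) n1
  clear_value b0 B L i0 P
  refine ⟨b1, n1, by omega, hold', ⟨?_, ?_, ?_, ?_⟩, ?_⟩
  · intro j hj
    rcases lt_trichotomy j n with h | h | h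
    · rw [hold' j h]; exact hF.pos j h
    · rw [h, hbuf, hB]; omega
    · have := (hrng j (by omega) hj).1
      have h2 : 1 ≤ 2 ^ i0 := Nat.one_le_two_pow
      omega
  · intro j hj
    rcases lt_trichotomy (j + 1) n with h | h | h
    · rw [hold' j (by omega), hold' (j + 1) h]; exact hF.mono j h
    · rw [hold' j (by omega), h, hbuf, hB]
      have h1 : S b n = S b j + b j := by rw [← h, S_succ]
      omega
    · rcases Nat.eq_or_lt_of_le (Nat.le_of_lt_succ h) with h' | h'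
      · rw [← h', hbuf]
        have := (hrng (n + 1) le_rfl (by omega)).1
        omega
      · exact hinc j (by omega) hj
  · intro j hj
    rcases lt_trichotomy j n with h | h | h
    · rw [hold' j h, Dg_congr (fun i hi => hold' i (by omega))]
      exact hF.adm j h
    · rw [h, hbuf, Dg_congr hold']
      rintro ⟨j', l, h1, h2, h3⟩
      have h4 := S_mono b h2
      omega
    · exact hadm j (by omega) hj
  · intro j hj
    rcases lt_trichotomy j n with h | h | h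
    · rw [hold' j h]
      have := hF.lt j h
      omega
    · rw [h, hbuf]; omega
    · exact (hrng j (by omega) hj).2
  · rw [← h6]
    exact hS1.trans h5

/-- the bounds of the stages -/
noncomputable def yk (m0 : ℕ) : ℕ → ℕ
  | 0 => 0
  | k + 1 => 2 * yk m0 k + 3 * (m0 + k) + 20 + rothNumberNat (2 ^ (m0 + k)) ^ 2 / 16384

lemma small (m : ℕ) (hm : 1 ≤ m) : 3 * m + 20 ≤ 6 * 4 ^ m := by
  induction m with
  | zero => omega
  | succ m ih =>
    rcases Nat.eq_zero_or_pos m with h | h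
    · subst h; norm_num
    · have := ih h
      rw [pow_succ]
      omega

lemma yk_le (m0 : ℕ) (hm0 : 1 ≤ m0) (k : ℕ) : yk m0 k ≤ 30 * 4 ^ (m0 + k) := by
  induction k with
  | zero => rw [yk]; exact Nat.zero_le _
  | succ k ih =>
    rw [yk]
    have h1 := small (m0 + k) (by omega)
    have h2 : rothNumberNat (2 ^ (m0 + k)) ^ 2 / 16384 ≤ 4 ^ (m0 + k) := by
      have h3 := rothNumberNat_le (2 ^ (m0 + k))
      have h4 : rothNumberNat (2 ^ (m0 + k)) ^ 2 ≤ (2 ^ (m0 + k)) ^ 2 := Nat.pow_le_pow_left h3 2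
      have h5 : (2 ^ (m0 + k)) ^ 2 = 4 ^ (m0 + k) := by
        rw [← pow_mul, mul_comm, pow_mul]
        norm_num
      rw [h5] at h4
      exact (Nat.div_le_self _ _).trans h4
    have h6 : 4 ^ (m0 + (k + 1)) = 4 * 4 ^ (m0 + k) := by
      rw [← add_assoc, pow_succ, mul_comm]
    rw [h6]
    omega

section

variable (hST : S_STAGE) (m0 : ℕ) (hm0 : 1 ≤ m0)
  (hR : ∀ m, m0 ≤ m → 2048 * (2 * m + 1) ≤ rothNumberNat (2 ^ m))

include hST hm0 hR in
lemma step_ex (k : ℕ) (p : {p : (ℕ → ℕ) × ℕ // Fs p.1 p.2 (yk m0 k)}) :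
    ∃ p' : {p : (ℕ → ℕ) × ℕ // Fs p.1 p.2 (yk m0 (k + 1))}, p.1.2 < p'.1.2 ∧
      (∀ j < p.1.2, p'.1.1 j = p.1.1 j) ∧
      ((rothNumberNat (2 ^ (m0 + k)) ^ 2 / 16384 : ℕ) : ℝ) / (128 * 2 ^ (m0 + k)) ≤
        ∑ j ∈ range p'.1.2, (1 : ℝ) / (p'.1.1 j : ℝ) := by
  obtain ⟨b', n', h1, h2, h3, h4⟩ := add_stage hST (m0 + k) (by omega) (hR _ (by omega)) p.1.1
    p.1.2 _ p.2
  exact ⟨⟨(b', n'), h3⟩, h1, h2, h4⟩

/-- the stages -/
noncomputable def chain : (k : ℕ) → {p : (ℕ → ℕ) × ℕ // Fs p.1 p.2 (yk m0 k)}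
  | 0 => ⟨(fun _ => 0, 0), ⟨fun _ h => absurd h (Nat.not_lt_zero _),
      fun _ h => absurd h (Nat.not_lt_zero _), fun _ h => absurd h (Nat.not_lt_zero _),
      fun _ h => absurd h (Nat.not_lt_zero _)⟩⟩
  | k + 1 => Classical.choose (step_ex hST m0 hm0 hR k (chain k))

lemma chain_spec (k : ℕ) : (chain hST m0 hm0 hR k).1.2 < (chain hST m0 hm0 hR (k + 1)).1.2 ∧
      (∀ j < (chain hST m0 hm0 hR k).1.2,
        (chain hST m0 hm0 hR (k + 1)).1.1 j = (chain hST m0 hm0 hR k).1.1 j) ∧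
      ((rothNumberNat (2 ^ (m0 + k)) ^ 2 / 16384 : ℕ) : ℝ) / (128 * 2 ^ (m0 + k)) ≤
        ∑ j ∈ range (chain hST m0 hm0 hR (k + 1)).1.2,
          (1 : ℝ) / ((chain hST m0 hm0 hR (k + 1)).1.1 j : ℝ) :=
  Classical.choose_spec (step_ex hST m0 hm0 hR k (chain hST m0 hm0 hR k))

lemma chain_n (k : ℕ) : k ≤ (chain hST m0 hm0 hR k).1.2 := by
  induction k with
  | zero => exact Nat.zero_le _
  | succ k ih =>
    have := (chain_spec hST m0 hm0 hR k).1
    omega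

lemma chain_coh (k d j : ℕ) (h : j < (chain hST m0 hm0 hR k).1.2) :
    (chain hST m0 hm0 hR (k + d)).1.1 j = (chain hST m0 hm0 hR k).1.1 j := by
  induction d with
  | zero => rfl
  | succ d ih =>
    rw [← ih]
    refine (chain_spec hST m0 hm0 hR (k + d)).2.1 j (lt_of_lt_of_le h ?_)
    clear ih
    induction d with
    | zero => exact le_rfl
    | succ d ih2 => exact ih2.trans (chain_spec hST m0 hm0 hR (k + d)).1.le

/-- the sequence -/
noncomputable def seq (j : ℕ) : ℕ := (chain hST m0 hm0 hR (j + 1)).1.1 j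

lemma seq_eq (k j : ℕ) (h : j < (chain hST m0 hm0 hR k).1.2) :
    seq hST m0 hm0 hR j = (chain hST m0 hm0 hR k).1.1 j := by
  have h1 := chain_n hST m0 hm0 hR (j + 1)
  have h2 := chain_coh hST m0 hm0 hR k (j + 1) j h
  have h3 := chain_coh hST m0 hm0 hR (j + 1) k j (by omega)
  rw [seq, ← h3, ← h2, add_comm]

end

/-- the result of the concatenation -/
def S_G1 : Prop := ∃ (a : ℕ → ℕ) (m0 : ℕ), StrictMono a ∧ 1 ≤ a 0 ∧
  (∀ i k l : ℕ, k ≤ l → l < i → a i ≠ ∑ j ∈ Icc k l, a j) ∧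
  (∀ m, m0 ≤ m → 2048 * (2 * m + 1) ≤ rothNumberNat (2 ^ m)) ∧
  ∀ m, m0 ≤ m → ∃ n : ℕ, (∀ j < n, a j < 2 ^ (30 * 4 ^ (m + 1))) ∧
    ((rothNumberNat (2 ^ m) ^ 2 / 16384 : ℕ) : ℝ) / (128 * 2 ^ m) ≤
      ∑ j ∈ range n, (1 : ℝ) / (a j : ℝ)

theorem t_G1 (hST : S_STAGE) (m0 : ℕ) (hm0 : 1 ≤ m0)
    (hR : ∀ m, m0 ≤ m → 2048 * (2 * m + 1) ≤ rothNumberNat (2 ^ m)) : S_G1 := by
  refine ⟨seq hST m0 hm0 hR, m0, ?_, ?_, ?_, hR, ?_⟩
  · refine strictMono_nat_of_lt_succ fun j => ?_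
    have h1 := chain_n hST m0 hm0 hR (j + 2)
    rw [seq_eq hST m0 hm0 hR (j + 2) j (by omega), seq_eq hST m0 hm0 hR (j + 2) (j + 1) (by omega)]
    exact (chain hST m0 hm0 hR (j + 2)).2.mono j (by omega)
  · have h1 := chain_n hST m0 hm0 hR 1
    rw [seq_eq hST m0 hm0 hR 1 0 (by omega)]
    exact (chain hST m0 hm0 hR 1).2.pos 0 (by omega)
  · intro i k l hkl hli heq
    have h1 := chain_n hST m0 hm0 hR (i + 1)
    have h2 := (chain hST m0 hm0 hR (i + 1)).2.adm i (by omega)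
    rw [← seq_eq hST m0 hm0 hR (i + 1) i (by omega),
      ← Dg_congr (b' := seq hST m0 hm0 hR) (fun j hj =>
        seq_eq hST m0 hm0 hR (i + 1) j (by omega))] at h2
    apply h2
    refine ⟨k, l + 1, by omega, by omega, ?_⟩
    rw [heq]
    exact S_Icc _ hkl
  · intro m hm
    obtain ⟨k, rfl⟩ := Nat.exists_eq_add_of_le hm
    refine ⟨(chain hST m0 hm0 hR (k + 1)).1.2, ?_, ?_⟩
    · intro j hj
      rw [seq_eq hST m0 hm0 hR (k + 1) j hj]
      refine lt_of_lt_of_le ((chain hST m0 hm0 hR (k + 1)).2.lt j hj) ?_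
      exact Nat.pow_le_pow_right (by norm_num) (yk_le m0 hm0 (k + 1))
    · refine (chain_spec hST m0 hm0 hR k).2.2.trans (le_of_eq ?_)
      refine sum_congr rfl fun j hj => ?_
      rw [seq_eq hST m0 hm0 hR (k + 1) j (mem_range.1 hj)]

end Pool.Agent.V7H38.AD
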