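import Pool.Agent.V7H76.AD.Spec
import Mathlib.Combinatorics.Additive.AP.Three.Behrend

/-!
# Project AD: asymptotics
-/

open Finset
open Pool.Agent.V7H76.AD

set_option autoImplicit false

namespace Pool.Agent.V7H38.AD

/-- Behrend's bound for powers of two -/
lemma behrend (m : ℕ) : Real.exp (m * Real.log 2 - 4 * √(m * Real.log 2)) ≤
    (rothNumberNat (2 ^ m) : ℝ) := by
  have h := @Behrend.roth_lower_bound (2 ^ m)
  have h1 : Real.log ((2 ^ m : ℕ) : ℝ) = m * Real.log 2 := by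
    rw [Nat.cast_pow, Real.log_pow]
    norm_num
  have h2 : ((2 ^ m : ℕ) : ℝ) = Real.exp (m * Real.log 2) := by
    rw [← h1, Real.exp_log (by positivity)]
  rw [h1, h2, ← Real.exp_add] at h
  refine le_trans (le_of_eq ?_) h
  congr 1
  ring

lemma log2_gt : (0.69 : ℝ) < Real.log 2 := by
  have := Real.log_two_gt_d9
  linarith

lemma log2_lt : Real.log 2 < 0.7 := by
  have := Real.log_two_lt_d9
  linarith

theorem t_M0 : ∀ m : ℕ, 1000 ≤ m → 2048 * (2 * m + 1) ≤ rothNumberNat (2 ^ m) := by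
  intro m hm
  have h1 := behrend m
  set s := √(m * Real.log 2) with hs
  have hml : (0 : ℝ) ≤ m * Real.log 2 := by positivity
  have hm' : (1000 : ℝ) ≤ m := by exact_mod_cast hm
  have hsq : s * s = m * Real.log 2 := Real.mul_self_sqrt hml
  have h690 : (690 : ℝ) ≤ s * s := by
    rw [hsq]
    have := log2_gt
    nlinarith
  have hs0 : 0 ≤ s := Real.sqrt_nonneg _
  have hs8 : 8 ≤ s := by
    by_contra hlt
    push Not at hlt
    nlinarith
  set t := s * s / 2 with ht
  have ht0 : (345 : ℝ) ≤ t := by rw [ht]; linarith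
  have h2 : t ≤ m * Real.log 2 - 4 * s := by
    rw [← hsq, ht]
    nlinarith
  have h3 := Real.exp_le_exp.2 h2
  have h4 := Real.pow_div_factorial_le_exp t (by linarith) 3
  have h5 : (2 * m + 1 : ℝ) ≤ 7 * t := by
    rw [ht, hsq]
    have := log2_gt
    nlinarith
  have h6 : (2048 * (2 * m + 1) : ℝ) ≤ t ^ 3 / ((Nat.factorial 3 : ℕ) : ℝ) := by
    have : ((Nat.factorial 3 : ℕ) : ℝ) = 6 := by norm_num [Nat.factorial]
    rw [this, le_div_iff₀ (by norm_num)]
    nlinarith [mul_nonneg (by linarith : (0 : ℝ) ≤ t) (by nlinarith : (0 : ℝ) ≤ t * t - 119025)]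
  have h7 : (2048 * (2 * m + 1) : ℝ) ≤ (rothNumberNat (2 ^ m) : ℝ) := by linarith
  exact_mod_cast h7

/-- the comparison of the exponents -/
lemma exponents (ε : ℝ) (hε : 0 < ε) (hε' : ε ≤ 1 / 4) (m : ℕ)
    (hm : (14 / ε + 1) ^ 2 ≤ m * Real.log 2) :
    (1 / 2 - ε) * Real.log (480 * 4 ^ m) ≤
      m * Real.log 2 - 8 * √(m * Real.log 2) - 22 * Real.log 2 := by
  set s := √(m * Real.log 2) with hs
  have hml : (0 : ℝ) ≤ m * Real.log 2 := by positivity
  have hsq : s * s = m * Real.log 2 := Real.mul_self_sqrt hml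
  have hs1 : 14 / ε + 1 ≤ s := by
    rw [hs]
    exact Real.le_sqrt_of_sq_le hm
  have hε14 : 0 < 14 / ε := by positivity
  have hεs : 14 ≤ ε * s := by
    have h1 : ε * (14 / ε) = 14 := by field_simp
    have h2 : ε * (14 / ε + 1) ≤ ε * s := mul_le_mul_of_nonneg_left hs1 hε.le
    nlinarith
  have h480 : Real.log 480 ≤ 7 := by
    have h1 : Real.log 480 ≤ Real.log (2 ^ 9) := Real.log_le_log (by norm_num) (by norm_num)
    have h2 : Real.log (2 ^ 9) = 9 * Real.log 2 := by
      rw [Real.log_pow]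
      norm_num
    have := log2_lt
    linarith
  have h480' : 0 ≤ Real.log 480 := Real.log_nonneg (by norm_num)
  have hlog : Real.log (480 * 4 ^ m) = Real.log 480 + 2 * (m * Real.log 2) := by
    rw [Real.log_mul (by norm_num) (by positivity), Real.log_pow,
      show (4 : ℝ) = 2 ^ 2 by norm_num, Real.log_pow]
    push_cast
    ring
  rw [hlog, ← hsq]
  have h2 := log2_lt
  have hs0 : 1 ≤ s := by linarith
  nlinarith

/-- the lower bound of one stage -/
lemma stage_lower (m : ℕ) (hR : 2048 * (2 * m + 1) ≤ rothNumberNat (2 ^ m)) :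
    Real.exp (m * Real.log 2 - 8 * √(m * Real.log 2) - 22 * Real.log 2) ≤
      ((rothNumberNat (2 ^ m) ^ 2 / 16384 : ℕ) : ℝ) / (128 * 2 ^ m) := by
  have h1 := behrend m
  set s := √(m * Real.log 2) with hs
  generalize rothNumberNat (2 ^ m) = R at *
  set L := R ^ 2 / 16384 with hL
  have h2 : R ^ 2 < 16384 * (L + 1) := by
    have := Nat.lt_mul_div_succ (R ^ 2) (by norm_num : 0 < 16384)
    rw [hL]
    exact this
  have h3 : 2048 ≤ R := by nlinarith
  have h4 : 1 ≤ L := by
    rw [hL, Nat.le_div_iff_mul_le (by norm_num)]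
    nlinarith
  have h5 : R ^ 2 ≤ 32768 * L := by nlinarith
  have h6 : (R : ℝ) ^ 2 ≤ 32768 * L := by exact_mod_cast h5
  have h7 : Real.exp (m * Real.log 2 - 4 * s) ^ 2 ≤ (R : ℝ) ^ 2 :=
    pow_le_pow_left₀ (Real.exp_pos _).le h1 2
  have h8 : Real.exp (m * Real.log 2 - 4 * s) ^ 2 =
      Real.exp (m * Real.log 2 - 8 * s - 22 * Real.log 2) * (2 ^ m * 2 ^ 22) := by
    have e1 : (2 : ℝ) ^ m = Real.exp (m * Real.log 2) := by
      rw [← Real.rpow_natCast, Real.rpow_def_of_pos (by norm_num), mul_comm]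
    have e2 : (2 : ℝ) ^ 22 = Real.exp (22 * Real.log 2) := by
      rw [← Real.rpow_natCast, Real.rpow_def_of_pos (by norm_num), mul_comm]
      norm_num
    rw [e1, e2, ← Real.exp_add, ← Real.exp_add, ← Real.exp_nat_mul]
    congr 1
    push_cast
    ring
  rw [le_div_iff₀ (by positivity)]
  have h9 : Real.exp (m * Real.log 2 - 8 * s - 22 * Real.log 2) * (2 ^ m * 2 ^ 22) ≤
      32768 * L := by rw [← h8]; linarith
  have h10 : (2 : ℝ) ^ 22 = 32768 * 128 := by norm_num
  rw [h10] at h9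
  nlinarith

end Pool.Agent.V7H38.AD
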